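import Pool.Agent.Helper18.PB2.Goals
import Pool.Agent.Helper84.PB.F2

/-!
# MP_b9cb57_an, packet D2: integrability and the second difference of the norm
-/

set_option autoImplicit false

open MeasureTheory Measure Pool.Agent.Helper18.PB Pool.Agent.Helper18.PB2

namespace Pool.Agent.Helper73.PB2

theorem abs_id (p q : ℝ) : |p + q| + |p - q| - 2 * |p| = 2 * max 0 (|q| - |p|) := by
  rcases abs_cases p with ⟨h1, h1'⟩ | ⟨h1, h1'⟩ <;> rcases abs_cases q with ⟨h2, h2'⟩ | ⟨h2, h2'⟩ <;>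
  rcases abs_cases (p + q) with ⟨h3, h3'⟩ | ⟨h3, h3'⟩ <;>
  rcases abs_cases (p - q) with ⟨h4, h4'⟩ | ⟨h4, h4'⟩ <;>
  rcases max_cases 0 (|q| - |p|) with ⟨h5, h5'⟩ | ⟨h5, h5'⟩ <;>
  rw [h5] <;> simp only [h1, h2] at * <;> linarith

theorem abs_four (p q r w m : ℝ) (h1 : |p| ≤ m) (h2 : |r| ≤ m) :
    |p + q| + |r - w| - 2 * m ≤ max 0 (|q - w| - |p - r|) + max 0 (|q + w| - |p + r|) := by
  have a1 : |p + r| + |p - r| ≤ 2 * m := by
    have e1 := abs_le.1 h1
    have e2 := abs_le.1 h2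
    rcases abs_cases (p + r) with ⟨h3, h3'⟩ | ⟨h3, h3'⟩ <;>
    rcases abs_cases (p - r) with ⟨h4, h4'⟩ | ⟨h4, h4'⟩ <;> linarith
  have m1 := le_max_left 0 (|q - w| - |p - r|)
  have m2 := le_max_right 0 (|q - w| - |p - r|)
  have m3 := le_max_left 0 (|q + w| - |p + r|)
  have m4 := le_max_right 0 (|q + w| - |p + r|)
  have b1 := le_abs_self (p + r)
  have b2 := neg_abs_le (p + r)
  have b3 := le_abs_self (p - r)
  have b4 := neg_abs_le (p - r)
  have b5 := le_abs_self (q - w)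
  have b6 := neg_abs_le (q - w)
  have b7 := le_abs_self (q + w)
  have b8 := neg_abs_le (q + w)
  rcases abs_cases (p + q) with ⟨h3, h3'⟩ | ⟨h3, h3'⟩ <;>
  rcases abs_cases (r - w) with ⟨h4, h4'⟩ | ⟨h4, h4'⟩ <;> rw [h3, h4] <;> linarith

theorem exists_norm_eq {M : ℕ} (hM : 0 < M) (f : Fin M → ℝ) : ∃ i, ‖f‖ = |f i| := by
  have : Nonempty (Fin M) := ⟨⟨0, hM⟩⟩
  obtain ⟨i, -, hi⟩ := Finset.exists_max_image Finset.univ (fun i => ‖f i‖) Finset.univ_nonempty
  refine ⟨i, le_antisymm ?_ ?_⟩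
  · exact (pi_norm_le_iff_of_nonneg (abs_nonneg _)).2 fun j => hi j (Finset.mem_univ j)
  · exact norm_le_pi_norm f i

/-- second difference of the maximum -/
theorem sup_part {n M : ℕ} (b : Fin M → Eu n) (x h : Eu n) :
    ‖(fun i : Fin M => (inner ℝ (b i) (x + h) : ℝ))‖
      + ‖(fun i : Fin M => (inner ℝ (b i) (x - h) : ℝ))‖
      - 2 * ‖(fun i : Fin M => (inner ℝ (b i) x : ℝ))‖
    ≤ ∑ i, ∑ j, (max 0 (|inner ℝ (b i - b j) h| - |inner ℝ (b i - b j) x|) +
        max 0 (|inner ℝ (b i + b j) h| - |inner ℝ (b i + b j) x|)) := by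
  have hnn : ∀ i j : Fin M, 0 ≤ (max 0 (|inner ℝ (b i - b j) h| - |inner ℝ (b i - b j) x|) +
        max 0 (|inner ℝ (b i + b j) h| - |inner ℝ (b i + b j) x|)) := fun i j =>
    add_nonneg (le_max_left _ _) (le_max_left _ _)
  rcases Nat.eq_zero_or_pos M with hM | hM
  · subst hM
    have hz : ∀ f : Fin 0 → ℝ, ‖f‖ = 0 := fun f => by
      rw [Subsingleton.elim f 0, norm_zero]
    rw [hz, hz, hz]
    simp
  · obtain ⟨i, hi⟩ := exists_norm_eq hM (fun i : Fin M => (inner ℝ (b i) (x + h) : ℝ))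
    obtain ⟨j, hj⟩ := exists_norm_eq hM (fun i : Fin M => (inner ℝ (b i) (x - h) : ℝ))
    rw [hi, hj]
    have h1 : |(inner ℝ (b i) x : ℝ)| ≤ ‖(fun i : Fin M => (inner ℝ (b i) x : ℝ))‖ :=
      norm_le_pi_norm (fun i : Fin M => (inner ℝ (b i) x : ℝ)) i
    have h2 : |(inner ℝ (b j) x : ℝ)| ≤ ‖(fun i : Fin M => (inner ℝ (b i) x : ℝ))‖ :=
      norm_le_pi_norm (fun i : Fin M => (inner ℝ (b i) x : ℝ)) j
    have h3 := abs_four (inner ℝ (b i) x) (inner ℝ (b i) h) (inner ℝ (b j) x) (inner ℝ (b j) h)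
      _ h1 h2
    rw [inner_add_right, inner_sub_right]
    refine h3.trans ?_
    have h4 : (max 0 (|inner ℝ (b i - b j) h| - |inner ℝ (b i - b j) x|) +
        max 0 (|inner ℝ (b i + b j) h| - |inner ℝ (b i + b j) x|))
        ≤ ∑ j, (max 0 (|inner ℝ (b i - b j) h| - |inner ℝ (b i - b j) x|) +
        max 0 (|inner ℝ (b i + b j) h| - |inner ℝ (b i + b j) x|)) :=
      Finset.single_le_sum (f := fun j => (max 0 (|inner ℝ (b i - b j) h| -
        |inner ℝ (b i - b j) x|) + max 0 (|inner ℝ (b i + b j) h| - |inner ℝ (b i + b j) x|)))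
        (fun j _ => hnn i j) (Finset.mem_univ j)
    have h5 : (∑ j, (max 0 (|inner ℝ (b i - b j) h| - |inner ℝ (b i - b j) x|) +
        max 0 (|inner ℝ (b i + b j) h| - |inner ℝ (b i + b j) x|)))
        ≤ ∑ i, ∑ j, (max 0 (|inner ℝ (b i - b j) h| - |inner ℝ (b i - b j) x|) +
        max 0 (|inner ℝ (b i + b j) h| - |inner ℝ (b i + b j) x|)) :=
      Finset.single_le_sum (f := fun i => ∑ j, (max 0 (|inner ℝ (b i - b j) h| -
        |inner ℝ (b i - b j) x|) + max 0 (|inner ℝ (b i + b j) h| - |inner ℝ (b i + b j) x|)))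
        (fun i _ => Finset.sum_nonneg fun j _ => hnn i j) (Finset.mem_univ i)
    refine le_trans (le_of_eq ?_) (h4.trans h5)
    rw [inner_sub_left, inner_sub_left, inner_add_left, inner_add_left]

variable {n M : ℕ} {a : ℕ → ℝ → Eu n} {c : ℕ → ℝ} {b : Fin M → ℝ → Eu n} {A : ℕ → ℝ} {B : ℝ}

theorem sumA (hD : Dat a c b A B) (u : ℝ) : Summable (fun k => c k * ‖a k u‖) :=
  Summable.of_nonneg_of_le (fun k => mul_nonneg (hD.cpos k).le (norm_nonneg _))
    (fun k => mul_le_mul_of_nonneg_left (hD.ba k u) (hD.cpos k).le) hD.csum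

theorem pt (hD : Dat a c b A B) (x h : Eu n) (u : ℝ) :
    nrm (fun k => a k u) c (fun i => b i u) (x + h) + nrm (fun k => a k u) c (fun i => b i u) (x - h)
      - 2 * nrm (fun k => a k u) c (fun i => b i u) x ≤ Jf a c b x h u := by
  unfold nrm Jf
  have h1 := sup_part (fun i => b i u) x h
  have s1 := Helper84.PB.sm hD.cpos (sumA hD u) (x + h)
  have s2 := Helper84.PB.sm hD.cpos (sumA hD u) (x - h)
  have s3 := Helper84.PB.sm hD.cpos (sumA hD u) x
  have h2 : ∑' k, c k * (2 * max 0 (|inner ℝ (a k u) h| - |inner ℝ (a k u) x|))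
      = ∑' k, c k * |inner ℝ (a k u) (x + h)| + ∑' k, c k * |inner ℝ (a k u) (x - h)|
        - 2 * ∑' k, c k * |inner ℝ (a k u) x| := by
    rw [← Summable.tsum_add s1 s2, ← tsum_mul_left, ← Summable.tsum_sub (s1.add s2) (s3.mul_left 2)]
    refine tsum_congr fun k => ?_
    rw [← abs_id, inner_add_right, inner_sub_right]
    ring
  rw [h2]
  linarith

theorem meas_inner (hD : Dat a c b A B) (x : Eu n) (k : ℕ) :
    Measurable (fun u => (inner ℝ (a k u) x : ℝ)) := (hD.ma k).inner measurable_const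

theorem meas_inner_b (hD : Dat a c b A B) (x : Eu n) (i : Fin M) :
    Measurable (fun u => (inner ℝ (b i u) x : ℝ)) := (hD.mb i).inner measurable_const

theorem meas_tsum {f : ℕ → ℝ → ℝ} (hf : ∀ k, Measurable (f k)) (hs : ∀ u, Summable fun k => f k u) :
    Measurable (fun u => ∑' k, f k u) := by
  refine measurable_of_tendsto_metrizable (f := fun N u => ∑ k ∈ Finset.range N, f k u)
    (fun N => Finset.measurable_sum _ fun k _ => hf k) ?_
  rw [tendsto_pi_nhds]
  intro u
  exact (hs u).hasSum.tendsto_sum_nat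

theorem meas_nrm (hD : Dat a c b A B) (x : Eu n) :
    Measurable (fun u => nrm (fun k => a k u) c (fun i => b i u) x) := by
  unfold nrm
  refine Measurable.add ?_ ?_
  · exact (measurable_pi_lambda _ fun i => meas_inner_b hD x i).norm
  · exact meas_tsum (fun k => ((meas_inner hD x k).abs).const_mul _)
      (fun u => Helper84.PB.sm hD.cpos (sumA hD u) x)

theorem nrm_le (hD : Dat a c b A B) (x : Eu n) (u : ℝ) :
    nrm (fun k => a k u) c (fun i => b i u) x ≤ |B| * ‖x‖ + (∑' k, c k * A k) * ‖x‖ := by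
  unfold nrm
  refine add_le_add ?_ ?_
  · refine (pi_norm_le_iff_of_nonneg (by positivity)).2 fun i => ?_
    refine (norm_inner_le_norm _ _).trans ?_
    exact mul_le_mul_of_nonneg_right ((hD.bb i u).trans (le_abs_self B)) (norm_nonneg _)
  · rw [← tsum_mul_right]
    refine Summable.tsum_le_tsum (fun k => ?_) (Helper84.PB.sm hD.cpos (sumA hD u) x)
      (hD.csum.mul_right _)
    rw [mul_assoc]
    refine mul_le_mul_of_nonneg_left ?_ (hD.cpos k).le
    refine (abs_real_inner_le_norm _ _).trans ?_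
    exact mul_le_mul_of_nonneg_right (hD.ba k u) (norm_nonneg _)

theorem int_nrm (hD : Dat a c b A B) (x : Eu n) :
    IntegrableOn (fun u => nrm (fun k => a k u) c (fun i => b i u) x) (Set.Icc 0 1) := by
  refine Measure.integrableOn_of_bounded (M := |B| * ‖x‖ + (∑' k, c k * A k) * ‖x‖) (by simp)
    (meas_nrm hD x).aestronglyMeasurable ?_
  refine Filter.Eventually.of_forall fun u => ?_
  rw [Real.norm_of_nonneg (Helper84.PB.nrm_nonneg hD.cpos x)]
  exact nrm_le hD x u

theorem term_le (v x h : Eu n) : max 0 (|(inner ℝ v h : ℝ)| - |inner ℝ v x|) ≤ ‖v‖ * ‖h‖ := by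
  refine max_le (by positivity) ?_
  have := abs_real_inner_le_norm v h
  have := abs_nonneg (inner ℝ v x : ℝ)
  linarith

theorem meas_max {v : ℝ → Eu n} (hv : Measurable v) (x h : Eu n) :
    Measurable (fun u => max 0 (|(inner ℝ (v u) h : ℝ)| - |inner ℝ (v u) x|)) :=
  measurable_const.max (((hv.inner measurable_const).abs).sub ((hv.inner measurable_const).abs))

theorem sum_J (hD : Dat a c b A B) (x h : Eu n) (u : ℝ) :
    Summable (fun k => c k * (2 * max 0 (|(inner ℝ (a k u) h : ℝ)| - |inner ℝ (a k u) x|))) := by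
  refine Summable.of_nonneg_of_le (fun k => mul_nonneg (hD.cpos k).le
    (mul_nonneg (by norm_num) (le_max_left _ _))) (fun k => ?_)
    (hD.csum.mul_right (2 * ‖h‖))
  have h1 := term_le (a k u) x h
  have h2 : ‖a k u‖ * ‖h‖ ≤ A k * ‖h‖ := mul_le_mul_of_nonneg_right (hD.ba k u) (norm_nonneg _)
  have h3 := (hD.cpos k).le
  calc c k * (2 * max 0 (|(inner ℝ (a k u) h : ℝ)| - |inner ℝ (a k u) x|))
      ≤ c k * (2 * (A k * ‖h‖)) := by
        refine mul_le_mul_of_nonneg_left ?_ h3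
        linarith
    _ = c k * A k * (2 * ‖h‖) := by ring

theorem meas_J (hD : Dat a c b A B) (x h : Eu n) : Measurable (fun u => Jf a c b x h u) := by
  unfold Jf
  refine Measurable.add ?_ ?_
  · refine Finset.measurable_sum _ fun i _ => Finset.measurable_sum _ fun j _ => ?_
    exact (meas_max ((hD.mb i).sub (hD.mb j)) x h).add (meas_max ((hD.mb i).add (hD.mb j)) x h)
  · exact meas_tsum (fun k => ((meas_max (hD.ma k) x h).const_mul 2).const_mul _)
      (fun u => sum_J hD x h u)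

theorem J_nonneg (hD : Dat a c b A B) (x h : Eu n) (u : ℝ) : 0 ≤ Jf a c b x h u := by
  unfold Jf
  refine add_nonneg (Finset.sum_nonneg fun i _ => Finset.sum_nonneg fun j _ =>
    add_nonneg (le_max_left _ _) (le_max_left _ _)) (tsum_nonneg fun k => ?_)
  exact mul_nonneg (hD.cpos k).le (mul_nonneg (by norm_num) (le_max_left _ _))

theorem J_le (hD : Dat a c b A B) (x h : Eu n) (u : ℝ) : Jf a c b x h u
    ≤ (∑ _i : Fin M, ∑ _j : Fin M, 4 * (|B| * ‖h‖)) + ∑' k, c k * A k * (2 * ‖h‖) := by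
  unfold Jf
  refine add_le_add (Finset.sum_le_sum fun i _ => Finset.sum_le_sum fun j _ => ?_) ?_
  · have h1 := term_le (b i u - b j u) x h
    have h2 := term_le (b i u + b j u) x h
    have h3 := norm_sub_le (b i u) (b j u)
    have h4 := norm_add_le (b i u) (b j u)
    have h5 := (hD.bb i u).trans (le_abs_self B)
    have h6 := (hD.bb j u).trans (le_abs_self B)
    have h7 : ‖b i u - b j u‖ * ‖h‖ ≤ (2 * |B|) * ‖h‖ :=
      mul_le_mul_of_nonneg_right (by linarith) (norm_nonneg _)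
    have h8 : ‖b i u + b j u‖ * ‖h‖ ≤ (2 * |B|) * ‖h‖ :=
      mul_le_mul_of_nonneg_right (by linarith) (norm_nonneg _)
    linarith
  · refine Summable.tsum_le_tsum (fun k => ?_) (sum_J hD x h u) (hD.csum.mul_right _)
    have h1 := term_le (a k u) x h
    have h2 : ‖a k u‖ * ‖h‖ ≤ A k * ‖h‖ := mul_le_mul_of_nonneg_right (hD.ba k u) (norm_nonneg _)
    calc c k * (2 * max 0 (|(inner ℝ (a k u) h : ℝ)| - |inner ℝ (a k u) x|))
        ≤ c k * (2 * (A k * ‖h‖)) := by
          refine mul_le_mul_of_nonneg_left ?_ (hD.cpos k).le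
          linarith
      _ = c k * A k * (2 * ‖h‖) := by ring

theorem int_J (hD : Dat a c b A B) (x h : Eu n) :
    IntegrableOn (fun u => Jf a c b x h u) (Set.Icc 0 1) := by
  refine Measure.integrableOn_of_bounded
    (M := (∑ _i : Fin M, ∑ _j : Fin M, 4 * (|B| * ‖h‖)) + ∑' k, c k * A k * (2 * ‖h‖)) (by simp)
    (meas_J hD x h).aestronglyMeasurable ?_
  refine Filter.Eventually.of_forall fun u => ?_
  rw [Real.norm_of_nonneg (J_nonneg hD x h u)]
  exact J_le hD x h u

theorem d2 : HD2 := by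
  intro n M a c b A B hD
  refine ⟨int_nrm hD, int_J hD, fun x h => ?_⟩
  unfold nm
  have e1 := integral_add (int_nrm hD (x + h)) (int_nrm hD (x - h))
  have e2 := integral_sub ((int_nrm hD (x + h)).add (int_nrm hD (x - h)))
    ((int_nrm hD x).const_mul 2)
  have e3 : ∫ u in Set.Icc (0 : ℝ) 1, 2 * nrm (fun k => a k u) c (fun i => b i u) x
      = 2 * ∫ u in Set.Icc (0 : ℝ) 1, nrm (fun k => a k u) c (fun i => b i u) x :=
    integral_const_mul _ _
  have e4 := integral_mono (((int_nrm hD (x + h)).add (int_nrm hD (x - h))).sub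
    ((int_nrm hD x).const_mul 2)) (int_J hD x h) (fun u => pt hD x h u)
  have e5 : (∫ u in Set.Icc (0 : ℝ) 1, (((fun u => nrm (fun k => a k u) c (fun i => b i u) (x + h))
      + fun u => nrm (fun k => a k u) c (fun i => b i u) (x - h)) - fun u =>
        2 * nrm (fun k => a k u) c (fun i => b i u) x) u)
      = (∫ u in Set.Icc (0 : ℝ) 1, nrm (fun k => a k u) c (fun i => b i u) (x + h))
        + (∫ u in Set.Icc (0 : ℝ) 1, nrm (fun k => a k u) c (fun i => b i u) (x - h))
        - 2 * ∫ u in Set.Icc (0 : ℝ) 1, nrm (fun k => a k u) c (fun i => b i u) x := by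
    rw [← e3, ← e1]
    exact e2
  rw [← e5]
  exact e4

end Pool.Agent.Helper73.PB2
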